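import Pool.Agent.H471R4.BX.Stubs

set_option autoImplicit false

/-! Project BX, task FIN (helper950). -/

namespace Pool.Agent.H471R4.BX

open Finset

open Pool.Agent.H379R2.W (Passes)

lemma fin_log_sq_le (c : ℝ) (hc : 0 < c) : ∃ n0 : ℕ, ∀ n : ℕ, n0 ≤ n →
    2 * (Real.log n) ^ 2 ≤ (n : ℝ) ^ c := by
  have h1 := isLittleO_log_rpow_rpow_atTop (s := c) 2 hc
  have h2 := h1.def (by norm_num : (0 : ℝ) < 1 / 2)
  obtain ⟨Y, hY⟩ := Filter.eventually_atTop.mp h2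
  refine ⟨max 1 ⌈Y⌉₊, fun n hn => ?_⟩
  have h3 := hY n (Nat.ceil_le.mp ((le_max_right _ _).trans hn))
  have h4 : (1 : ℝ) ≤ n := by exact_mod_cast (le_max_left _ _).trans hn
  have h5 : 0 ≤ Real.log n := Real.log_nonneg h4
  rw [Real.norm_of_nonneg (by positivity), Real.norm_of_nonneg (by positivity)] at h3
  have h6 : Real.log n ^ (2 : ℝ) = Real.log n ^ 2 := by norm_cast
  rw [h6] at h3
  linarith

theorem fin_ (h1 : CNT) (h2 : BW.MSQ) : FIN := by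
  intro δ ε hδ hε
  obtain ⟨C, x0, hC⟩ := h1 (δ * (ε / 2)) ε (by positivity) hε
  obtain ⟨n0, hn0⟩ := h2
  obtain ⟨n1, hn1⟩ := fin_log_sq_le δ hδ
  obtain ⟨Y, hY⟩ := Filter.eventually_atTop.mp
    ((tendsto_rpow_atTop (by positivity : 0 < ε / 2)).eventually_ge_atTop
      (((max n0 n1 : ℕ) : ℝ)))
  obtain ⟨x1, hx1⟩ : ∃ x1 : ℕ, x1 = max x0 ⌈Y⌉₊ := ⟨_, rfl⟩
  refine ⟨|C| + 1 + x1, fun x hx W hW => ?_⟩
  have hxr : (1:ℝ) ≤ x := by exact_mod_cast hx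
  have hx0' : (0:ℝ) ≤ x := by linarith
  have hxe : (1:ℝ) ≤ (x:ℝ) ^ ε := Real.one_le_rpow hxr hε.le
  have hWx : W ⊆ Icc 1 x := by
    intro n hn
    obtain ⟨a, b, _⟩ := hW n hn
    rw [mem_Icc]
    omega
  have hCn := abs_nonneg C
  have hx1n : (0:ℝ) ≤ x1 := Nat.cast_nonneg _
  by_cases hlt : x < x1
  · have c1 : (W.card : ℝ) ≤ x := by
      have := card_le_card hWx
      rw [Nat.card_Icc] at this
      exact_mod_cast (by omega : W.card ≤ x)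
    have c2 : (x:ℝ) ≤ x1 := by exact_mod_cast hlt.le
    calc (W.card : ℝ) ≤ |C| + 1 + x1 := by linarith
      _ = (|C| + 1 + x1) * 1 := (mul_one _).symm
      _ ≤ _ := mul_le_mul_of_nonneg_left hxe (by linarith)
  push Not at hlt
  rw [hx1] at hlt
  have hx0 : x0 ≤ x := (le_max_left _ _).trans hlt
  have hYx : Y ≤ x := Nat.ceil_le.mp ((le_max_right x0 _).trans hlt)
  have hbig : ((max n0 n1 : ℕ) : ℝ) ≤ (x:ℝ) ^ (ε / 2) := hY x hYx
  classical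
  have hsum : W.card = (W.filter (fun n : ℕ => (n:ℝ) ≤ (x:ℝ) ^ (ε / 2))).card +
      (W.filter (fun n : ℕ => ¬ (n:ℝ) ≤ (x:ℝ) ^ (ε / 2))).card :=
    (Finset.card_filter_add_card_filter_not _).symm
  have c1 : ((W.filter (fun n : ℕ => (n:ℝ) ≤ (x:ℝ) ^ (ε / 2))).card : ℝ) ≤ (x:ℝ) ^ ε := by
    have hs : W.filter (fun n : ℕ => (n:ℝ) ≤ (x:ℝ) ^ (ε / 2)) ⊆ Icc 1 ⌊(x:ℝ) ^ (ε / 2)⌋₊ := by
      intro n hn
      rw [mem_filter] at hn
      rw [mem_Icc]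
      exact ⟨(mem_Icc.1 (hWx hn.1)).1, Nat.le_floor hn.2⟩
    have h3 := card_le_card hs
    rw [Nat.card_Icc, Nat.add_sub_cancel] at h3
    have h4 : ((W.filter (fun n : ℕ => (n:ℝ) ≤ (x:ℝ) ^ (ε / 2))).card : ℝ) ≤
        (⌊(x:ℝ) ^ (ε / 2)⌋₊ : ℝ) := by exact_mod_cast h3
    refine h4.trans ((Nat.floor_le (by positivity)).trans ?_)
    exact Real.rpow_le_rpow_of_exponent_le hxr (by linarith)
  have c2 : ((W.filter (fun n : ℕ => ¬ (n:ℝ) ≤ (x:ℝ) ^ (ε / 2))).card : ℝ) ≤ C * (x:ℝ) ^ ε := by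
    refine hC x hx0 _ fun n hn => ?_
    rw [mem_filter] at hn
    obtain ⟨hnW, hnx⟩ := hn
    push Not at hnx
    obtain ⟨g1, g2, g3, g4⟩ := hW n hnW
    have hb2 : max n0 n1 ≤ n := by exact_mod_cast (hbig.trans hnx.le)
    refine ⟨g1, g2, ?_, g3, ?_⟩
    · rw [Nat.squarefree_iff_prime_squarefree]
      intro p hp hpp
      obtain ⟨b, hb1, hb3, hb4⟩ := hn0 n ((le_max_left _ _).trans hb2) p hp (by rwa [pow_two])
      exact hb4 (g4 b hb1 (hb3.trans (hn1 n ((le_max_right _ _).trans hb2))))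
    · intro b hb1 hb3
      refine g4 b hb1 (hb3.trans ?_)
      rw [mul_comm δ, Real.rpow_mul hx0']
      exact Real.rpow_le_rpow (by positivity) hnx.le hδ.le
  have c3 : C * (x:ℝ) ^ ε ≤ |C| * (x:ℝ) ^ ε :=
    mul_le_mul_of_nonneg_right (le_abs_self C) (by linarith)
  have c4 : 0 ≤ (x1:ℝ) * (x:ℝ) ^ ε := by positivity
  rw [hsum]
  push_cast
  nlinarith

end Pool.Agent.H471R4.BX
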