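import Pool.Agent.H471R4.BX.Stubs

set_option autoImplicit false

/-! Project BX, task IDX: bounded index. -/

namespace Pool.Agent.H471R4.BX

open Finset

namespace TaskIDX

theorem smooth_pow {q m : ℕ} {y : ℝ} (h : ∀ l : ℕ, l.Prime → (l : ℝ) ≤ y → (l : ZMod q) ^ m = 1) :
    ∀ s : ℕ, 1 ≤ s → (∀ l : ℕ, l.Prime → l ∣ s → (l : ℝ) ≤ y) → (s : ZMod q) ^ m = 1 := by
  intro s
  induction s using Nat.strong_induction_on with
  | _ s ih =>
    intro hs hl
    by_cases h1 : s = 1
    · rw [h1, Nat.cast_one, one_pow]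
    · obtain ⟨k, hk⟩ := Nat.minFac_dvd s
      have hp := Nat.minFac_prime h1
      have hk0 : 1 ≤ k := by
        rcases Nat.eq_zero_or_pos k with h0 | h0
        · rw [h0, mul_zero] at hk
          omega
        · exact h0
      have hks : k < s := by
        rw [hk]
        have := hp.two_le
        have h2 : 2 * k ≤ s.minFac * k := Nat.mul_le_mul_right k this
        omega
      rw [hk, Nat.cast_mul, mul_pow, h _ hp (hl _ hp (Nat.minFac_dvd s)), one_mul]
      exact ih k hks hk0 fun l hlp hlk => hl l hlp (hk ▸ Dvd.dvd.mul_left hlk _)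

theorem card_roots_le {q g : ℕ} [Fact q.Prime] (hg : 0 < g) :
    (univ.filter fun z : ZMod q => z ^ g = 1).card ≤ g := by
  classical
  have h1 : (univ.filter fun z : ZMod q => z ^ g = 1) ⊆
      (Polynomial.nthRoots g (1 : ZMod q)).toFinset := by
    intro z hz
    rw [Multiset.mem_toFinset, Polynomial.mem_nthRoots hg]
    exact (mem_filter.1 hz).2
  exact (card_le_card h1).trans ((Multiset.toFinset_card_le _).trans
    (Polynomial.card_nthRoots g 1))

end TaskIDX

open TaskIDX in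
/-- task IDX -/
theorem idx (h : Pool.Agent.H471R4.BW.SMO) : IDX := by
  classical
  intro η hη
  obtain ⟨κ, hκ⟩ : ∃ κ : ℝ, κ = min η 1 := ⟨_, rfl⟩
  have hκ0 : 0 < κ := by rw [hκ]; exact lt_min hη one_pos
  have hκη : κ ≤ η := by rw [hκ]; exact min_le_left _ _
  have hκ1 : κ ≤ 1 := by rw [hκ]; exact min_le_right _ _
  obtain ⟨c, hc, D0, hD⟩ := h κ hκ0 hκ1
  have hev : ∀ᶠ n : ℕ in Filter.atTop, (D0 : ℝ) < (n : ℝ) ^ η :=
    ((tendsto_rpow_atTop hη).comp tendsto_natCast_atTop_atTop).eventually_gt_atTop _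
  obtain ⟨n1, hn1⟩ := Filter.eventually_atTop.1 hev
  refine ⟨(⌊1 / c⌋₊).factorial, max n1 1, Nat.factorial_pos _, fun x hx p hp hpx hxp e he => ?_⟩
  rcases Nat.eq_zero_or_pos e with he0 | he0
  · rw [he0, mul_zero]
    exact dvd_zero _
  have hx1 : 1 ≤ x := (le_max_right _ _).trans hx
  have hxr : (1 : ℝ) ≤ x := by exact_mod_cast hx1
  have hDp : D0 ≤ p := by
    have h5 := hn1 x ((le_max_left _ _).trans hx)
    have h6 : (D0 : ℝ) < p := lt_of_lt_of_le h5 hxp
    exact_mod_cast h6.le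
  have : Fact p.Prime := ⟨hp⟩
  have hp2 := hp.two_le
  obtain ⟨S, hS, hScard⟩ := hD p hDp
  have hunit : ∀ z : ZMod p, z ^ e = 1 → z ^ (p - 1) = 1 := by
    intro z hz
    refine ZMod.pow_card_sub_one_eq_one fun h0 => ?_
    rw [h0, zero_pow (by omega)] at hz
    exact zero_ne_one hz
  obtain ⟨g, hg⟩ : ∃ g, Nat.gcd e (p - 1) = g := ⟨_, rfl⟩
  have hgz : ∀ z : ZMod p, z ^ e = 1 → z ^ g = 1 := by
    intro z hz
    rw [← hg]
    exact pow_gcd_eq_one.2 ⟨hz, hunit z hz⟩
  have hgpos : 0 < g := by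
    rw [← hg]
    exact Nat.gcd_pos_of_pos_left _ he0
  have hSg : S.card ≤ g := by
    refine le_trans ?_ (card_roots_le (q := p) hgpos)
    refine card_le_card_of_injOn (fun s => (s : ZMod p)) ?_ ?_
    · intro s hs
      obtain ⟨h5, h6, h7⟩ := hS s hs
      rw [mem_coe, mem_filter]
      refine ⟨mem_univ _, hgz _ ?_⟩
      refine smooth_pow he s h5 fun l hlp hls => ?_
      refine (h7 l hlp hls).trans ?_
      have hpr : (p : ℝ) ≤ x := by exact_mod_cast hpx
      calc (p : ℝ) ^ κ ≤ (x : ℝ) ^ κ := Real.rpow_le_rpow (by positivity) hpr hκ0.le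
        _ ≤ (x : ℝ) ^ η := Real.rpow_le_rpow_of_exponent_le hxr hκη
    · intro s hs s' hs' hss
      have h5 := (hS s hs).2.1
      have h6 := (hS s' hs').2.1
      have h7 : (s : ZMod p) = (s' : ZMod p) := hss
      rw [ZMod.natCast_eq_natCast_iff', Nat.mod_eq_of_lt h5, Nat.mod_eq_of_lt h6] at h7
      exact h7
  have hgp : g ∣ p - 1 := by
    rw [← hg]
    exact Nat.gcd_dvd_right _ _
  have hge : g ∣ e := by
    rw [← hg]
    exact Nat.gcd_dvd_left _ _
  obtain ⟨t, ht⟩ := hgp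
  have ht0 : 0 < t := by
    rcases Nat.eq_zero_or_pos t with h0 | h0
    · rw [h0, mul_zero] at ht
      omega
    · exact h0
  have hcg : c * p ≤ g := by
    have h5 : (S.card : ℝ) ≤ g := by exact_mod_cast hSg
    linarith
  have hgr : (0 : ℝ) < g := by exact_mod_cast hgpos
  have htc : (t : ℝ) ≤ 1 / c := by
    rw [le_div_iff₀ hc]
    have h5 : g * t ≤ p := by omega
    have h6 : (g : ℝ) * t ≤ p := by exact_mod_cast h5
    have h7 : c * ((g : ℝ) * t) ≤ g * 1 := by
      rw [mul_one]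
      exact (mul_le_mul_of_nonneg_left h6 hc.le).trans hcg
    have h8 : (g : ℝ) * (t * c) ≤ g * 1 := by
      calc (g : ℝ) * (t * c) = c * ((g : ℝ) * t) := by ring
        _ ≤ g * 1 := h7
    exact le_of_mul_le_mul_left h8 hgr
  have htd : t ∣ (⌊1 / c⌋₊).factorial := Nat.dvd_factorial ht0 (Nat.le_floor htc)
  rw [ht, mul_comm g t]
  exact mul_dvd_mul htd hge

end Pool.Agent.H471R4.BX
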