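import Pool.Agent.H471R4.BW.Stubs2

set_option autoImplicit false

/-! Project BX (few composite numbers without a witness below `n ^ δ`): statements. -/

namespace Pool.Agent.H471R4.BX

open Finset

open Pool.Agent.H379R2.W (Passes)

/-- task LSQ: a bounded number of exceptional real moduli -/
def LSQ : Prop := ∀ η : ℝ, 0 < η → ∃ K x0 : ℕ, ∀ x : ℕ, x0 ≤ x → ∀ E : Finset ℕ,
    (∀ N ∈ E, 1 < N ∧ N ≤ x ∧ Odd N ∧ Squarefree N ∧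
      ∀ l : ℕ, l.Prime → (l : ℝ) ≤ (x : ℝ) ^ η → jacobiSym l N = 1) → E.card ≤ K

/-- task IDX: bounded index -/
def IDX : Prop := ∀ η : ℝ, 0 < η → ∃ L x0 : ℕ, 0 < L ∧ ∀ x : ℕ, x0 ≤ x → ∀ p : ℕ, p.Prime →
    p ≤ x → (x : ℝ) ^ η ≤ p → ∀ e : ℕ,
    (∀ l : ℕ, l.Prime → (l : ℝ) ≤ (x : ℝ) ^ η → (l : ZMod p) ^ e = 1) → (p - 1) ∣ L * e

/-- task STR: structure of the exceptional integers -/
def STR : Prop := ∀ (n y : ℕ) (T : Finset ℕ), 2 ≤ n → 2 ≤ y → Squarefree n → ¬ n.Prime →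
    (∀ b : ℕ, 1 < b → b ≤ y → Passes n b) →
    (∀ q : ℕ, q.Prime → q ∣ n → (∀ l : ℕ, l.Prime → l ≤ y → jacobiSym l q = 1) → q ∈ T) →
    (∀ q q' : ℕ, q.Prime → q'.Prime → q ≠ q' → q ∣ n → q' ∣ n →
      (∀ l : ℕ, l.Prime → l ≤ y → jacobiSym l (q * q') = 1) → q ∈ T) →
    ∃ p ∈ n.primeFactors, n.primeFactors.erase p ⊆ T ∧ (n.primeFactors.erase p).Nonempty

/-- task CNT: counting, one range -/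
def CNT : Prop := ∀ η ε : ℝ, 0 < η → 0 < ε → ∃ C : ℝ, ∃ x0 : ℕ, ∀ x : ℕ, x0 ≤ x →
    ∀ W : Finset ℕ, (∀ n ∈ W, 2 ≤ n ∧ n ≤ x ∧ Squarefree n ∧ ¬ n.Prime ∧
      ∀ b : ℕ, 1 < b → (b : ℝ) ≤ (x : ℝ) ^ η → Passes n b) → (W.card : ℝ) ≤ C * (x : ℝ) ^ ε

/-- task FIN -/
def FIN : Prop := ∀ δ ε : ℝ, 0 < δ → 0 < ε → ∃ K : ℝ, ∀ x : ℕ, 1 ≤ x → ∀ W : Finset ℕ,
    (∀ n ∈ W, 2 ≤ n ∧ n ≤ x ∧ ¬ n.Prime ∧ ∀ b : ℕ, 1 < b → (b : ℝ) ≤ (n : ℝ) ^ δ → Passes n b) →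
    (W.card : ℝ) ≤ K * (x : ℝ) ^ ε

end Pool.Agent.H471R4.BX
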